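import Mathlib
import Pool.Agent.W151.TreeEnd

set_option autoImplicit false

namespace Pool.Agent.Results.MP_8211ad_co.AlmostSpanning

/-- For every graph `G` on `n ≥ 2` vertices the number of subtrees with `n - 1` vertices is at
least `((n-1)/n)^(n-3)` times the number of subtrees with `n` vertices (spanning trees). -/
theorem result (n : ℕ) (hn : 2 ≤ n) (V : Type) [Fintype V] (hV : Fintype.card V = n)
    (G : SimpleGraph V) :
    (((n : ℝ) - 1) / (n : ℝ)) ^ ((n : ℤ) - 3) *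
        (Set.ncard {H : G.Subgraph | H.coe.IsTree ∧ H.verts.ncard = n} : ℝ) ≤
      (Set.ncard {H : G.Subgraph | H.coe.IsTree ∧ H.verts.ncard = n - 1} : ℝ) := by
  classical
  subst hV
  set N := Fintype.card V with hN
  rw [Pool.Agent.W151.TreeIneq.s_eq, Pool.Agent.W151.TreeIneq.s_eq]
  have h := Pool.Agent.W151.TreeIneq.ratio_anti G (k := N - 1) (by omega) (by omega)
  have hN1 : N - 1 + 1 = N := by omega
  rw [hN1, Pool.Agent.W151.TreeIneq.s_top (by omega : 1 ≤ N),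
    Pool.Agent.W151.TreeIneq.s_top (by omega : 1 ≤ N - 1), ← hN, Nat.choose_self] at h
  have hch : N.choose (N - 1) = N := by
    rw [Nat.choose_symm (by omega : 1 ≤ N), Nat.choose_one_right]
  rw [hch] at h
  have hn0 : (0 : ℝ) < (N : ℝ) := by
    have : 0 < N := by omega
    exact_mod_cast this
  have hn1 : (0 : ℝ) < (N : ℝ) - 1 := by
    have : (1 : ℝ) < (N : ℝ) := by exact_mod_cast (by omega : 1 < N)
    linarith
  -- values of a
  have ha : (Pool.Agent.W151.TreeNum.a N : ℝ) = (N : ℝ) ^ ((N : ℤ) - 2) := by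
    unfold Pool.Agent.W151.TreeNum.a
    rw [Nat.cast_pow, ← zpow_natCast, Nat.cast_sub hn]
    norm_num
  have ha1 : (Pool.Agent.W151.TreeNum.a (N - 1) : ℝ) = ((N : ℝ) - 1) ^ ((N : ℤ) - 3) := by
    unfold Pool.Agent.W151.TreeNum.a
    rcases Nat.lt_or_ge N 3 with h3 | h3
    · have : N = 2 := by omega
      rw [this]
      norm_num
    · rw [Nat.cast_pow, ← zpow_natCast, Nat.cast_sub (by omega : 2 ≤ N - 1),
        Nat.cast_sub (by omega : 1 ≤ N), Nat.cast_sub (by omega : 1 ≤ N)]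
      have e1 : ((N : ℤ) - ((1 : ℕ) : ℤ) - ((2 : ℕ) : ℤ)) = (N : ℤ) - 3 := by
        push_cast
        ring
      rw [e1]
      norm_num
  rw [ha, ha1] at h
  have hp0 : (0 : ℝ) < (N : ℝ) ^ ((N : ℤ) - 2) := zpow_pos hn0 _
  have hp1 : (0 : ℝ) < ((N : ℝ) - 1) ^ ((N : ℤ) - 3) := zpow_pos hn1 _
  have hp2 : (0 : ℝ) < (N : ℝ) ^ ((N : ℤ) - 3) := zpow_pos hn0 _
  have hsplit : (N : ℝ) ^ ((N : ℤ) - 2) = (N : ℝ) ^ ((N : ℤ) - 3) * (N : ℝ) := by
    rw [← zpow_add_one₀ hn0.ne']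
    congr 1
    ring
  rw [Nat.cast_one, one_mul, div_le_div_iff₀ hp0 (by positivity), hsplit] at h
  rw [div_zpow]
  rw [div_mul_eq_mul_div, div_le_iff₀ hp2]
  have h' : (((N : ℝ) - 1) ^ ((N : ℤ) - 3) * Pool.Agent.W151.TreeIneq.s G N) * (N : ℝ) ≤
      (Pool.Agent.W151.TreeIneq.s G (N - 1) * (N : ℝ) ^ ((N : ℤ) - 3)) * (N : ℝ) := by
    calc _ = Pool.Agent.W151.TreeIneq.s G N * ((N : ℝ) * ((N : ℝ) - 1) ^ ((N : ℤ) - 3)) := by ring
      _ ≤ _ := h
      _ = _ := by ring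
  exact le_of_mul_le_mul_right h' hn0

end Pool.Agent.Results.MP_8211ad_co.AlmostSpanning
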